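import Mathlib
import Pool.Agent.R989.HullG

open MeasureTheory

namespace Pool.Agent.Results.MP_57d4a6_pr.ConvexStableHulls

open Pool.Agent.R989.CHull

/-- `x ↦ X(x)` is a random closed set (measurable for the σ-algebra generated by the hitting
events). -/
theorem measurable_coordHull {d : ℕ} (hd : 0 < d) :
    @Measurable _ _ _ (hitSigma (Fin d → ℝ)) (coordHull : (Fin d → ℝ) → Set (Fin d → ℝ)) := by
  have : Nonempty (Fin d) := ⟨⟨0, hd⟩⟩
  have h : (coordHull : (Fin d → ℝ) → Set (Fin d → ℝ)) = cH := funext coordHull_eq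
  rw [h]
  exact measurable_cH

/-- Complete answer to Q1: `μ` is the law of the random vector `ξ`. -/
theorem result :
    (∀ d : ℕ, 2 ≤ d → ∀ μ : Measure (Fin d → ℝ), IsProbabilityMeasure μ →
      (ConvexStable μ coordHull ↔ Answer μ)) ∧
    (∀ μ : Measure (Fin 1 → ℝ), IsProbabilityMeasure μ →
      (ConvexStable μ coordHull ↔ ∀ n : ℕ, 1 ≤ n → ∃ a : ℝ, 0 < a ∧ ∃ k : ℝ, ∀ t : ℝ,
        μ {x | x 0 ≤ t} ^ n = μ {x | a * x 0 ≤ t + k})) := by
  refine ⟨fun d hd μ hμ => ?_, fun μ hμ => main_one μ⟩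
  have : Nontrivial (Fin d) := Fin.nontrivial_iff_two_le.mpr hd
  exact main μ

end Pool.Agent.Results.MP_57d4a6_pr.ConvexStableHulls
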